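import Pool.Agent.Lib.MP_28303a_al.NT.Lab

/-! # Row F3: the idempotents of perfect objects in a new direction -/

set_option autoImplicit false
set_option linter.unusedSectionVars false
set_option linter.unusedVariables false

namespace Pool.Agent.NegK.NT.H27

universe u

open CategoryTheory Limits

section

variable {k : Type u} [Ring k] {Γ : Type u} [Group Γ] {B : Type u} [MulAction Γ B] {P : Pre Γ B}

/-- Chain maps given by linear maps. -/
noncomputable def chm {E E' : CochainComplex (Loc k P) ℤ}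
    (φ : ∀ n, (E.X n).F →ₗ[MonoidAlgebra k Γ] (E'.X n).F)
    (hφ : ∀ n, Loc.Spt (E.X n) (E'.X n) (φ n))
    (hc : ∀ n n', Loc.lin (E'.d n n') ∘ₗ φ n = φ n' ∘ₗ Loc.lin (E.d n n')) : E ⟶ E' where
  f n := Loc.hm (φ n) (hφ n)
  comm' n n' _ := by
    refine Loc.hom_ext ?_
    rw [Loc.lin_comp, Loc.lin_comp, Loc.lin_hm, Loc.lin_hm]
    exact hc n n'

theorem lin_chm {E E' : CochainComplex (Loc k P) ℤ}
    (φ : ∀ n, (E.X n).F →ₗ[MonoidAlgebra k Γ] (E'.X n).F)
    (hφ : ∀ n, Loc.Spt (E.X n) (E'.X n) (φ n))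
    (hc : ∀ n n', Loc.lin (E'.d n n') ∘ₗ φ n = φ n' ∘ₗ Loc.lin (E.d n n')) (n : ℤ) :
    Loc.lin ((chm φ hφ hc).f n) = φ n := rfl

/-- The identity of a free module respects a growth of the locations. -/
theorem spt_loc {ι : Type u} (a b : ι → B) (h : ∀ x, P.le (a x) (b x)) :
    Loc.Spt (⟨ι, a⟩ : Loc k P) (⟨ι, b⟩ : Loc k P)
      (LinearMap.id : (ι →₀ MonoidAlgebra k Γ) →ₗ[MonoidAlgebra k Γ] _) := by
  classical
  intro i j g hg
  rw [LinearMap.id_apply, Finsupp.single_apply] at hg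
  split_ifs at hg with h1
  · subst h1
    rw [MonoidAlgebra.one_def, MonoidAlgebra.coeff_single, Finsupp.single_apply] at hg
    split_ifs at hg with h2
    · rw [← h2, one_smul]
      exact h i
    · exact absurd rfl hg
  · exact absurd rfl hg

/-- The basis elements of a finite complex, in all degrees. -/
theorem fin_sigma {E : CochainComplex (Loc k P) ℤ} (h : FinC E) :
    Finite (Σ n : ℤ, (E.X n).ι) := by
  obtain ⟨a, b, hab⟩ := h.bdd
  have : Finite (Set.Icc a b) := (Set.finite_Icc a b).to_subtype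
  have : ∀ n : Set.Icc a b, Finite (E.X n.1).ι := fun n => h.fin n.1
  refine Finite.of_surjective (α := Σ n : Set.Icc a b, (E.X n.1).ι) (fun z => ⟨z.1.1, z.2⟩) ?_
  rintro ⟨n, x⟩
  have hn : n ∈ Set.Icc a b := by
    by_contra hc
    have h2 : n < a ∨ b < n := by
      rw [Set.mem_Icc, not_and_or, not_le, not_le] at hc
      exact hc
    exact (hab n h2).false x
  exact ⟨⟨⟨n, hn⟩, x⟩, rfl⟩

/-- The entries different from zero of a chain map of a finite complex: finitely many. -/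
theorem fin_ent {E E' : CochainComplex (Loc k P) ℤ} (h : FinC E) (h' : FinC E') (p : E ⟶ E')
    {V : Type u} (F : ∀ n, (E.X n).ι → Γ → (E'.X n).ι → V) :
    {c : V | ∃ (n : ℤ) (x : (E.X n).ι) (y : (E'.X n).ι) (g : Γ),
      ent (Loc.lin (p.f n)) x y g ≠ 0 ∧ c = F n x g y}.Finite := by
  have := fin_sigma h
  have : ∀ n, Finite (E'.X n).ι := h'.fin
  have h1 : (⋃ (z : Σ n : ℤ, (E.X n).ι), ⋃ (y : (E'.X z.1).ι),
      (fun g => F z.1 z.2 g y) ''
        (((Loc.lin (p.f z.1) (Finsupp.single z.2 1)) y).coeff.support : Set Γ)).Finite :=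
    Set.finite_iUnion fun z => Set.finite_iUnion fun y => (Finset.finite_toSet _).image _
  refine h1.subset ?_
  rintro c ⟨n, x, y, g, hg, rfl⟩
  refine Set.mem_iUnion.2 ⟨⟨n, x⟩, Set.mem_iUnion.2 ⟨y, g, ?_, rfl⟩⟩
  exact Finsupp.mem_support_iff.2 hg

end

variable {Γ : Type u} [Group Γ] (T : Sys Γ)

/-- Row F3. -/
theorem f3 (hK : T.KOS) (hL : T.LAM) (hR : T.RLJ) : T.F3 := by
  intro S J i hJS hi k _ X hX
  obtain ⟨Λ, ⟨R⟩⟩ := hK S J hJS k X hX
  have hiJ : i ∉ J := fun h => hi (hJS h)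
  obtain ⟨p, hp⟩ := (HomotopyCategory.quotient (Loc k (T.P S)) (ComplexShape.up ℤ)).map_surjective
    (R.r ≫ R.i)
  obtain ⟨l, hl, -⟩ := hL S J k Λ i ∅ Set.finite_empty
  have := fin_sigma Λ.fin
  obtain ⟨l', hl', hC⟩ := hL S J k Λ i
    (Set.range (fun z : Σ n : ℤ, (Λ.E.X n).ι => (l (Λ.π z.1 z.2), (1 : Γ), Λ.π z.1 z.2)) ∪
      {c | ∃ (n : ℤ) (x : (Λ.E.X n).ι) (y : (Λ.E.X n).ι) (g : Γ),
        ent (Loc.lin (p.f n)) x y g ≠ 0 ∧ c = (l (Λ.π n x), g, Λ.π n y)})
    ((Set.finite_range _).union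
      (fin_ent Λ.fin Λ.fin p fun n x g y => (l (Λ.π n x), g, Λ.π n y)))
  have hC1 : ∀ n x, l (Λ.π n x) ≤ l' (Λ.π n x) := by
    intro n x
    have := hC _ (Or.inl ⟨⟨n, x⟩, rfl⟩)
    rwa [one_smul] at this
  have hC2 : ∀ (n : ℤ) (x y : (Λ.E.X n).ι) (g : Γ), ent (Loc.lin (p.f n)) x y g ≠ 0 →
      l (Λ.π n x) ≤ g • l' (Λ.π n y) := by
    intro n x y g hg
    exact hC _ (Or.inr ⟨n, x, y, g, hg, rfl⟩)
  -- the complexes
  set C := Λ.rl i l hl (insert i S) Finset.Subset.rfl with hCd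
  set C' := Λ.rl i l' hl' (insert i S) Finset.Subset.rfl with hCd'
  let id' : ∀ n, ((Λ.E.X n).ι →₀ MonoidAlgebra k Γ) →ₗ[MonoidAlgebra k Γ]
    ((Λ.E.X n).ι →₀ MonoidAlgebra k Γ) := fun n => LinearMap.id
  let t₀ : C ⟶ C' := chm (E := C) (E' := C') (fun n => id' n)
    (fun n => spt_loc _ _ (by
      intro x a ha
      show Function.update ((Λ.E.X n).loc x) i (l (Λ.π n x)) a ≤
        Function.update ((Λ.E.X n).loc x) i (l' (Λ.π n x)) a
      by_cases hai : a = i
      · subst hai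
        rw [Function.update_self, Function.update_self]
        exact hC1 n x
      · rw [Function.update_of_ne hai, Function.update_of_ne hai]))
    (fun n n' => rfl)
  let f₀ : C ⟶ C' := chm (E := C) (E' := C')
    (fun n => Loc.lin (A := Λ.E.X n) (A' := Λ.E.X n) (p.f n))
    (fun n => by
      intro x y g hg a ha
      show Function.update ((Λ.E.X n).loc x) i (l (Λ.π n x)) a ≤
        g • Function.update ((Λ.E.X n).loc y) i (l' (Λ.π n y)) a
      by_cases hai : a = i
      · subst hai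
        rw [Function.update_self, Function.update_self]
        exact hC2 n x y g hg
      · rw [Function.update_of_ne hai, Function.update_of_ne hai]
        exact Loc.spt_lin (p.f n) x y g hg a (Finset.mem_of_mem_insert_of_ne ha hai))
    (fun n n' => congrArg Loc.lin (p.comm n n'))
  let M : CochainComplex (Loc k (T.P (insert i S))) ℤ ⥤ CochainComplex (Loc k (T.P S)) ℤ :=
    (Loc.push (T.fg (Finset.subset_insert i S))).mapHomologicalComplex (ComplexShape.up ℤ)
  let Q := HomotopyCategory.quotient (Loc k (T.P S)) (ComplexShape.up ℤ)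
  have hloc : ∀ (l : Λ.β → T.B i) (n : ℤ) (x : (Λ.E.X n).ι),
      ∀ a ∈ S, Function.update ((Λ.E.X n).loc x) i (l (Λ.π n x)) a = (Λ.E.X n).loc x a := by
    intro l n x a ha
    rw [Function.update_of_ne]
    rintro rfl
    exact hi ha
  let u : M.obj C ⟶ Λ.E := chm (E := M.obj C) (E' := Λ.E) (fun n => id' n)
    (fun n => spt_loc _ _ fun x a ha => (hloc l n x a ha).le) (fun n n' => rfl)
  let v : Λ.E ⟶ M.obj C := chm (E := Λ.E) (E' := M.obj C) (fun n => id' n)
    (fun n => spt_loc _ _ fun x a ha => (hloc l n x a ha).ge) (fun n n' => rfl)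
  let w : M.obj C' ⟶ M.obj C := chm (E := M.obj C') (E' := M.obj C) (fun n => id' n)
    (fun n => spt_loc _ _ fun x a ha => ((hloc l' n x a ha).trans (hloc l n x a ha).symm).le)
    (fun n n' => rfl)
  have hvu : v ≫ u = 𝟙 _ := HomologicalComplex.hom_ext _ _ fun n => Loc.hom_ext rfl
  have huv : u ≫ v = 𝟙 _ := HomologicalComplex.hom_ext _ _ fun n => Loc.hom_ext rfl
  have htw : M.map t₀ ≫ w = 𝟙 _ := HomologicalComplex.hom_ext _ _ fun n => Loc.hom_ext rfl
  have hwt : w ≫ M.map t₀ = 𝟙 _ := HomologicalComplex.hom_ext _ _ fun n => Loc.hom_ext rfl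
  have hpt : M.map f₀ = u ≫ p ≫ v ≫ M.map t₀ :=
    HomologicalComplex.hom_ext _ _ fun n => Loc.hom_ext rfl
  have hQt : (T.L k (Finset.subset_insert i S)).map
      ((HomotopyCategory.quotient (Loc k (T.P (insert i S))) (ComplexShape.up ℤ)).map t₀) =
      Q.map (M.map t₀) := rfl
  have hQf : (T.L k (Finset.subset_insert i S)).map
      ((HomotopyCategory.quotient (Loc k (T.P (insert i S))) (ComplexShape.up ℤ)).map f₀) =
      Q.map (M.map f₀) := rfl
  refine ⟨qo C, qo C',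
    (HomotopyCategory.quotient (Loc k (T.P (insert i S))) (ComplexShape.up ℤ)).map t₀,
    (HomotopyCategory.quotient (Loc k (T.P (insert i S))) (ComplexShape.up ℤ)).map f₀,
    R.i ≫ Q.map v, Q.map u ≫ R.r, hR S J k Λ i l hl _ _ hiJ, hR S J k Λ i l' hl' _ _ hiJ,
    ?_, ?_, ?_⟩
  · have h1 : Q.map (M.map t₀) ≫ Q.map w = 𝟙 (Q.obj (M.obj C)) := by
      rw [← Functor.map_comp, htw, CategoryTheory.Functor.map_id]
    have h2 : Q.map w ≫ Q.map (M.map t₀) = 𝟙 (Q.obj (M.obj C')) := by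
      rw [← Functor.map_comp, hwt, CategoryTheory.Functor.map_id]
    exact ⟨Q.map w, h1, h2⟩
  · have h1 : Q.map v ≫ Q.map u = 𝟙 (Q.obj Λ.E) := by
      rw [← Functor.map_comp, hvu, CategoryTheory.Functor.map_id]
    have h2 : (R.i ≫ Q.map v) ≫ (Q.map u ≫ R.r) = R.i ≫ (Q.map v ≫ Q.map u) ≫ R.r := by
      simp only [Category.assoc]
    refine h2.trans ?_
    rw [h1, Category.id_comp, R.retract]
  · have h1 : Q.map (M.map f₀) = (Q.map u ≫ Q.map p ≫ Q.map v) ≫ Q.map (M.map t₀) := by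
      rw [hpt, Functor.map_comp, Functor.map_comp, Functor.map_comp]
      simp only [Category.assoc]
    have h2 : (Q.map u ≫ Q.map p ≫ Q.map v) =
        (Q.map u ≫ R.r) ≫ (R.i ≫ Q.map v) := by
      rw [hp]
      simp only [Category.assoc]
    rw [h2] at h1
    exact h1

end Pool.Agent.NegK.NT.H27
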